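import Mathlib
import Pool.Agent.Helper15.KP.Defs
import Pool.Agent.Helper83.VF.Kill

/-!
# JC: the Segre embedding and its projections; sums of harmonic functions
-/

set_option autoImplicit false
set_option linter.unusedSectionVars false

namespace Pool.Agent.Helper9.JC

open VC VF Function Pool.Agent.Helper21.TO Pool.Agent.Helper15.GT Pool.Agent.Helper15.KP

universe u

section seg

variable {k F : Type u} [Field k] [Field F] [Algebra k F] {L M : ℕ} {ι : Type}
  {e : Fin M × ι → Fin L} {ξ : Fin M → F} {ζ : ι → F} {η : Fin L → F}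

lemma seg_sat (h : ∀ i j, η (e (i, j)) = ξ i * ζ j) {K : Type u} [Field K] [Algebra k K]
    {a : Fin L → K} (ha : Sat (van k η) a) (j : ι) : Sat (van k ξ) (fun i => a (e (i, j))) := by
  intro P hP n hn
  have h1 : MvPolynomial.rename (fun i => e (i, j)) P ∈ van k η := by
    change MvPolynomial.aeval η (MvPolynomial.rename (fun i => e (i, j)) P) = 0
    rw [MvPolynomial.aeval_rename]
    have h2 : (η ∘ fun i => e (i, j)) = fun i => ζ j * ξ i := by
      funext i
      rw [Function.comp_apply, h, mul_comm]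
    have h3 : MvPolynomial.aeval ξ P = 0 := hP
    rw [h2, aeval_smul' hn, h3, mul_zero]
  have h4 := ha _ h1 n (hn.rename_isHomogeneous)
  rw [MvPolynomial.aeval_rename] at h4
  exact h4

lemma seg_rank (h : ∀ i j, η (e (i, j)) = ξ i * ζ j) {K : Type u} [Field K] [Algebra k K]
    {a : Fin L → K} (ha : Sat (van k η) a) (i i' : Fin M) (j j' : ι) :
    a (e (i, j)) * a (e (i', j')) = a (e (i, j')) * a (e (i', j)) := by
  have h1 : (MvPolynomial.X (e (i, j)) * MvPolynomial.X (e (i', j')) -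
      MvPolynomial.X (e (i, j')) * MvPolynomial.X (e (i', j)) : MvPolynomial (Fin L) k) ∈ van k η := by
    change MvPolynomial.aeval η _ = 0
    rw [map_sub, map_mul, map_mul, MvPolynomial.aeval_X, MvPolynomial.aeval_X, MvPolynomial.aeval_X,
      MvPolynomial.aeval_X, h, h, h, h]
    ring
  have h2 := ha _ h1 2 (((MvPolynomial.isHomogeneous_X k _).mul (MvPolynomial.isHomogeneous_X k _)).sub
    ((MvPolynomial.isHomogeneous_X k _).mul (MvPolynomial.isHomogeneous_X k _)))
  rw [map_sub, map_mul, map_mul, MvPolynomial.aeval_X, MvPolynomial.aeval_X, MvPolynomial.aeval_X,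
    MvPolynomial.aeval_X] at h2
  exact sub_eq_zero.1 h2

/-- the relation between a point of the Segre model and its projection -/
def SegR (e : Fin M × ι → Fin L) (ξ : Fin M → F) (η : Fin L → F) {K : Type u} [Field K] [Algebra k K]
    (x : PPt k K (van k η)) (y : PPt k K (van k ξ)) : Prop :=
  ∃ (a : Fin L → K) (ha : a ≠ 0) (h : Sat (van k η) a) (j : ι) (hb : (fun i => a (e (i, j))) ≠ 0)
    (h' : Sat (van k ξ) (fun i => a (e (i, j)))), x = ppt a ha h ∧ y = ppt _ hb h'

lemma seg_exists (h : ∀ i j, η (e (i, j)) = ξ i * ζ j) (he : Function.Surjective e) {K : Type u}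
    [Field K] [Algebra k K] (x : PPt k K (van k η)) : ∃ y, SegR e ξ η x y := by
  obtain ⟨a, ha, hs, rfl⟩ := exists_ppt x
  obtain ⟨l, hl⟩ := Function.ne_iff.mp ha
  obtain ⟨⟨i, j⟩, rfl⟩ := he l
  have hb : (fun i => a (e (i, j))) ≠ 0 := by
    intro h0
    exact hl (congrFun h0 i)
  exact ⟨ppt _ hb (seg_sat h hs j), a, ha, hs, j, hb, seg_sat h hs j, rfl, rfl⟩

lemma seg_unique (h : ∀ i j, η (e (i, j)) = ξ i * ζ j) {K : Type u}
    [Field K] [Algebra k K] {x : PPt k K (van k η)} {y y' : PPt k K (van k ξ)}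
    (hy : SegR e ξ η x y) (hy' : SegR e ξ η x y') : y = y' := by
  obtain ⟨a, ha, hs, j, hb, hb', hx, rfl⟩ := hy
  obtain ⟨a', ha', hs', j', hc, hc', hx', rfl⟩ := hy'
  rw [hx] at hx'
  obtain ⟨c, hc1⟩ := ppt_eq_iff.1 hx'
  apply ppt_eq_of_cross
  intro i i'
  rw [← hc1 (e (i, j)), ← hc1 (e (i', j))]
  have h1 := seg_rank h hs' i i' j j'
  linear_combination c * h1

end seg

section proj

variable {k F : Type u} [Field k] [IsAlgClosed k] [CharZero k] [Field F] [Algebra k F] {L M : ℕ}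
  {ι : Type} {e : Fin M × ι → Fin L} {ξ : Fin M → F} {ζ : ι → F} {η : Fin L → F}

/-- The projection of the Segre model. -/
theorem seg_proj (h : ∀ i j, η (e (i, j)) = ξ i * ζ j) (he : Function.Surjective e) (hη : η ≠ 0)
    (hξ : ξ ≠ 0) :
    ∃ r : (proj k (van k η)).Pt → (proj k (van k ξ)).Pt,
      Induced (proj k (van k η)) (proj k (van k ξ)) r ∧
      ∀ w : RPl k F, r (evP η hη w) = evP ξ hξ w := by
  choose r hr using fun x : PPt k k (van k η) => seg_exists h he x
  refine ⟨r, ?_, fun w => ?_⟩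
  · intro K _ _ hK c
    obtain ⟨y, hy⟩ := seg_exists h he c
    refine ⟨y, fun v => ?_⟩
    obtain ⟨a, ha, hs, b, hb, hs', hc, hev, hv⟩ := exists_pcoord hK v c
    rw [hev]
    obtain ⟨l, hl⟩ := Function.ne_iff.mp hb
    obtain ⟨⟨i, j⟩, rfl⟩ := he l
    have hbj : (fun i => b (e (i, j))) ≠ 0 := by
      intro h0
      exact hl (congrFun h0 i)
    have haj : (fun i => a (e (i, j))) ≠ 0 := res_ne_zero hbj (fun i => hv (e (i, j)))
    have h1 : y = ppt _ haj (seg_sat h hs j) :=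
      seg_unique h hy ⟨a, ha, hs, j, haj, seg_sat h hs j, hc, rfl⟩
    have h2 : r (ppt b hb hs') = ppt _ hbj (seg_sat h hs' j) :=
      seg_unique h (hr _) ⟨b, hb, hs', j, hbj, seg_sat h hs' j, rfl, rfl⟩
    rw [h1, h2]
    exact peval_eq hK v haj (seg_sat h hs j) hbj (seg_sat h hs' j) (fun i => hv (e (i, j)))
  · obtain ⟨b, hb, hs, ⟨-, ρ, hρ⟩, hev⟩ := exists_evP η hη w
    rw [hev]
    obtain ⟨l, hl⟩ := Function.ne_iff.mp hb
    obtain ⟨⟨i, j⟩, rfl⟩ := he l
    have hbj : (fun i => b (e (i, j))) ≠ 0 := by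
      intro h0
      exact hl (congrFun h0 i)
    have h2 : r (ppt b hb hs) = ppt _ hbj (seg_sat h hs j) :=
      seg_unique h (hr _) ⟨b, hb, hs, j, hbj, seg_sat h hs j, rfl, rfl⟩
    rw [h2]
    symm
    refine evP_eq hξ ⟨hbj, ρ * ζ j, fun i => ?_⟩ hbj (seg_sat h hs j)
    have h3 := hρ (e (i, j))
    rw [h] at h3
    have h4 : ρ * ζ j * ξ i = ρ * (ξ i * ζ j) := by ring
    rw [h4]
    exact h3

/-- Sums of harmonic functions. -/
theorem HF_add {u v : RPl k F → k} (hu : HF k F u) (hv : HF k F v) :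
    HF k F (fun w => u w + v w) := by
  obtain ⟨M, ξ, hξ, φ, hφ, hu⟩ := hu
  obtain ⟨M', ξ', hξ', φ', hφ', hv⟩ := hv
  set e : Fin M × Fin M' ≃ Fin (M * M') := finProdFinEquiv with he
  set η : Fin (M * M') → F := fun l => ξ (e.symm l).1 * ξ' (e.symm l).2 with hη
  have h1 : ∀ i j, η (e (i, j)) = ξ i * ξ' j := by
    intro i j
    rw [hη]
    simp
  have hη0 : η ≠ 0 := by
    obtain ⟨i, hi⟩ := Function.ne_iff.mp hξ
    obtain ⟨j, hj⟩ := Function.ne_iff.mp hξ'
    intro h0
    have h2 := congrFun h0 (e (i, j))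
    rw [h1] at h2
    rcases mul_eq_zero.1 h2 with h3 | h3
    · exact hi h3
    · exact hj h3
  obtain ⟨r, hr, hr'⟩ := seg_proj (k := k) (e := e) h1 e.surjective hη0 hξ
  obtain ⟨s, hs, hs'⟩ := seg_proj (k := k) (e := e ∘ Prod.swap) (ξ := ξ') (ζ := ξ) (η := η)
    (fun i j => by
      rw [Function.comp_apply, Prod.swap_prod_mk, h1, mul_comm])
    (e.surjective.comp Prod.swap_surjective) hη0 hξ'
  refine ⟨M * M', η, hη0, fun x => φ (r x) + φ' (s x), (hφ.comp hr).add (hφ'.comp hs), fun w => ?_⟩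
  beta_reduce
  rw [hu, hv, hr', hs']

end proj

end Pool.Agent.Helper9.JC
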