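import Mathlib
import Pool.Agent.Helper79.JC.Defs
import Pool.Agent.Helper9.JC.Seg

/-!
# JC: block ADD
-/

set_option autoImplicit false

namespace Pool.Agent.Helper79.JC

universe u

theorem add : StmtAdd.{u} :=
  fun _ _ _ _ _ _ _ _ _ hu hv => Pool.Agent.Helper9.JC.HF_add hu hv

end Pool.Agent.Helper79.JC
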